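import Pool.Agent.Q4.SPC.Stm3

/-! Project SPC (helper4, MP_34be05_nt), job GG: the decomposition of a similitude at a place. -/

set_option autoImplicit false

open IsDedekindDomain NumberField Matrix Q4.GLC Q4.SPC
noncomputable section

namespace Pool.Agent.Q182.SPC

variable {F : Type} [Field F] [NumberField F] {n : ℕ}

open Classical in
/-- the idempotent adele of the place `v` -/
def idem (v : Pl F) : Af F :=
  (⟨fun w => if w = v then (1 : w.adicCompletion F) else 0, Filter.Eventually.of_forall fun w => by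
      show (if w = v then (1 : w.adicCompletion F) else 0) ∈ w.adicCompletionIntegers F
      split_ifs
      · exact one_mem _
      · exact zero_mem _⟩ : Af F)

open Classical in
theorem idem_apply (v w : Pl F) :
    (idem v : Af F) w = if w = v then (1 : w.adicCompletion F) else 0 := rfl

theorem idem_self (v : Pl F) : (idem v : Af F) v = 1 := by rw [idem_apply, if_pos rfl]

theorem idem_ne {v w : Pl F} (h : w ≠ v) : (idem v : Af F) w = 0 := by rw [idem_apply, if_neg h]

theorem idem_mul (v : Pl F) : (idem v : Af F) * idem v = idem v := by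
  apply FiniteAdeleRing.ext
  intro w
  show (idem v : Af F) w * (idem v : Af F) w = (idem v : Af F) w
  by_cases h : w = v
  · subst h; rw [idem_self, one_mul]
  · rw [idem_ne h, zero_mul]

theorem gsp_ext {x y : GSp n (Af F)} (h : ∀ w, gcomp F n w x = gcomp F n w y) : x = y := by
  refine Subtype.ext (Prod.ext (Units.ext (Matrix.ext fun i j => ?_)) (Units.ext ?_))
  · apply FiniteAdeleRing.ext
    intro w
    rw [← gcomp_val w x, ← gcomp_val w y, h]
  · apply FiniteAdeleRing.ext
    intro w
    rw [← gcomp_nu w x, ← gcomp_nu w y, h]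

section idem

variable {R : Type} [CommRing R] {e : R} (he : e * e = e)

include he

theorem aux1 : (1 - e) * (1 - e) = 1 - e := by
  have : (1 - e) * (1 - e) = 1 - 2 * e + e * e := by ring
  rw [this, he]; ring

theorem aux2 : (1 - e) * e = 0 := by rw [sub_mul, he, one_mul, sub_self]

theorem aux3 : e * (1 - e) = 0 := by rw [mul_sub, he, mul_one, sub_self]

/-- the matrix which is `1` on one part and `A` on the other -/
def pm {ι : Type} [Fintype ι] [DecidableEq ι] : Matrix ι ι R →* Matrix ι ι R where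
  toFun A := (1 - e) • (1 : Matrix ι ι R) + e • A
  map_one' := by rw [← add_smul, sub_add_cancel, one_smul]
  map_mul' A B := by
    simp only [Matrix.add_mul, Matrix.mul_add, Matrix.smul_mul, Matrix.mul_smul,
      Matrix.one_mul, Matrix.mul_one, smul_add]
    simp only [smul_smul, aux1 he, aux2 he, aux3 he, he, zero_smul, add_zero, zero_add]

/-- the scalar which is `1` on one part and `a` on the other -/
def ps : R →* R where
  toFun a := (1 - e) + e * a
  map_one' := by ring
  map_mul' a b := by
    have h : (1 - e + e * a) * (1 - e + e * b) =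
        (1 - e) * (1 - e) + (1 - e) * e * b + (1 - e) * e * a + (e * e) * (a * b) := by ring
    rw [h, aux1 he, aux2 he, he]
    ring

/-- the similitude which is `1` on one part and `g` on the other -/
def pg {n : ℕ} (g : GSp n R) : GSp n R :=
  ⟨(Units.map (pm he) g.1.1, Units.map (ps he) g.1.2), by
    have h := g.2
    change g.1.1.1 * J (Fin n) R * g.1.1.1ᵀ = g.1.2.1 • J (Fin n) R at h
    change ((1 - e) • (1 : Matrix (Fin n ⊕ Fin n) (Fin n ⊕ Fin n) R) +
        e • g.1.1.1) * J (Fin n) R *
      ((1 - e) • (1 : Matrix (Fin n ⊕ Fin n) (Fin n ⊕ Fin n) R) +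
        e • g.1.1.1)ᵀ = ((1 - e) + e * g.1.2.1) • J (Fin n) R
    simp only [transpose_add, transpose_smul, transpose_one, Matrix.add_mul,
      Matrix.mul_add, Matrix.smul_mul, Matrix.mul_smul, h,
      Matrix.one_mul, Matrix.mul_one, smul_add]
    simp only [smul_smul, aux1 he, aux2 he, aux3 he, he, zero_smul, add_zero, zero_add]
    rw [← add_smul, ← mul_assoc, he]⟩

theorem pg_entry {n : ℕ} (g : GSp n R) (i j : Fin n ⊕ Fin n) : (pg he g).1.1.1 i j =
    (1 - e) * ((1 : Matrix (Fin n ⊕ Fin n) (Fin n ⊕ Fin n) R) i j) + e * g.1.1.1 i j := rfl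

theorem pg_inv_entry {n : ℕ} (g : GSp n R) (i j : Fin n ⊕ Fin n) : (pg he g).1.1⁻¹.1 i j =
    (1 - e) * ((1 : Matrix (Fin n ⊕ Fin n) (Fin n ⊕ Fin n) R) i j) + e * g.1.1⁻¹.1 i j := rfl

theorem pg_nu {n : ℕ} (g : GSp n R) : (pg he g).1.2.1 = (1 - e) + e * g.1.2.1 := rfl

theorem pg_nu_inv {n : ℕ} (g : GSp n R) : (pg he g).1.2⁻¹.1 = (1 - e) + e * g.1.2⁻¹.1 := rfl

end idem

/-- the part of `g` at the place `v` -/
def part (v : Pl F) (g : GSp n (Af F)) : GSp n (Af F) := pg (idem_mul v) g

theorem part_entry (v w : Pl F) (g : GSp n (Af F)) (i j : Fin n ⊕ Fin n) :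
    ((part v g).1.1.1 i j) w = (1 - (idem v : Af F) w) *
      (((1 : Matrix (Fin n ⊕ Fin n) (Fin n ⊕ Fin n) (Af F)) i j) w) +
      (idem v : Af F) w * ((g.1.1.1 i j) w) := by
  rw [part, pg_entry]
  rfl

theorem part_inv_entry (v w : Pl F) (g : GSp n (Af F)) (i j : Fin n ⊕ Fin n) :
    ((part v g).1.1⁻¹.1 i j) w = (1 - (idem v : Af F) w) *
      (((1 : Matrix (Fin n ⊕ Fin n) (Fin n ⊕ Fin n) (Af F)) i j) w) +
      (idem v : Af F) w * ((g.1.1⁻¹.1 i j) w) := by
  rw [part, pg_inv_entry]
  rfl

theorem part_nu (v w : Pl F) (g : GSp n (Af F)) :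
    ((part v g).1.2.1) w = (1 - (idem v : Af F) w) + (idem v : Af F) w * (g.1.2.1 w) := by
  rw [part, pg_nu]
  rfl

theorem part_nu_inv (v w : Pl F) (g : GSp n (Af F)) :
    ((part v g).1.2⁻¹.1) w = (1 - (idem v : Af F) w) + (idem v : Af F) w * (g.1.2⁻¹.1 w) := by
  rw [part, pg_nu_inv]
  rfl

theorem gcomp_part_self (v : Pl F) (g : GSp n (Af F)) :
    gcomp F n v (part v g) = gcomp F n v g := by
  refine Subtype.ext (Prod.ext (Units.ext (Matrix.ext fun i j => ?_)) (Units.ext ?_))
  · rw [gcomp_val, gcomp_val, part_entry, idem_self, sub_self, zero_mul, zero_add, one_mul]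
  · rw [gcomp_nu, gcomp_nu, part_nu, idem_self, sub_self, zero_add, one_mul]

theorem gat_part (v : Pl F) (g : GSp n (Af F)) : GAt v (part v g) := by
  intro w hw
  refine ⟨fun i j => ?_, ?_⟩
  · rw [part_entry, idem_ne hw, sub_zero, one_mul, zero_mul, add_zero]
  · rw [part_nu, idem_ne hw, sub_zero, zero_mul, add_zero]

theorem val_bd {v w : Pl F} {a b : w.adicCompletion F} (ha : w = v → Valued.v a ≤ 1)
    (hb : Valued.v b ≤ 1) :
    Valued.v ((1 - (idem v : Af F) w) * b + (idem v : Af F) w * a - b) ≤ 1 := by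
  by_cases hw : w = v
  · have h1 : (idem v : Af F) w = 1 := by rw [idem_apply, if_pos hw]
    rw [h1, sub_self, zero_mul, zero_add, one_mul]
    exact (Valuation.map_sub _ _ _).trans (max_le (ha hw) hb)
  · rw [idem_ne hw, sub_zero, one_mul, zero_mul, add_zero, sub_self, map_zero]
    exact zero_le_one

theorem val_one (w : Pl F) (i j : Fin n ⊕ Fin n) : Valued.v
    (((1 : Matrix (Fin n ⊕ Fin n) (Fin n ⊕ Fin n) (Af F)) i j) w : w.adicCompletion F) ≤ 1 := by
  rw [Matrix.one_apply]
  split_ifs
  · change Valued.v (1 : w.adicCompletion F) ≤ 1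
    rw [map_one]
  · change Valued.v (0 : w.adicCompletion F) ≤ 1
    rw [map_zero]; exact zero_le_one

theorem gg : GG := by
  intro F _ _ n v g hg hg'
  refine ⟨g * (part v g)⁻¹, part v g, ?_, by group, ?_⟩
  · rw [mem_KG]
    refine ⟨?_, gat_part v g⟩
    rw [mem_UG]
    refine ⟨⟨?_, ?_⟩, ?_, ?_⟩
    · intro i j w
      rw [Nat.cast_one]
      change Valued.v (((part v g).1.1.1 i j) w -
        ((1 : Matrix (Fin n ⊕ Fin n) (Fin n ⊕ Fin n) (Af F)) i j) w) ≤
        Valued.v (1 : w.adicCompletion F)
      rw [map_one, part_entry]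
      refine val_bd ?_ (val_one w i j)
      rintro rfl
      exact hg.1 i j
    · intro i j w
      rw [Nat.cast_one]
      change Valued.v (((part v g).1.1⁻¹.1 i j) w -
        ((1 : Matrix (Fin n ⊕ Fin n) (Fin n ⊕ Fin n) (Af F)) i j) w) ≤
        Valued.v (1 : w.adicCompletion F)
      rw [map_one, part_inv_entry]
      refine val_bd ?_ (val_one w i j)
      rintro rfl
      exact hg'.1 i j
    · intro w
      rw [Nat.cast_one]
      change Valued.v (((part v g).1.2.1) w - (1 : w.adicCompletion F)) ≤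
        Valued.v (1 : w.adicCompletion F)
      rw [map_one, part_nu]
      have h := val_bd (v := v) (w := w) (a := g.1.2.1 w) (b := 1)
        (by rintro rfl; exact hg.2) (by rw [map_one])
      rw [mul_one] at h
      exact h
    · intro w
      rw [Nat.cast_one]
      change Valued.v (((part v g).1.2⁻¹.1) w - (1 : w.adicCompletion F)) ≤
        Valued.v (1 : w.adicCompletion F)
      rw [map_one, part_nu_inv]
      have h := val_bd (v := v) (w := w) (a := g.1.2⁻¹.1 w) (b := 1)
        (by rintro rfl; exact hg'.2) (by rw [map_one])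
      rw [mul_one] at h
      exact h
  · intro h hh
    apply gsp_ext
    intro w
    rw [map_mul (gcomp F n w) (g * (part v g)⁻¹) h,
      map_mul (gcomp F n w) h (g * (part v g)⁻¹)]
    by_cases hw : w = v
    · subst hw
      have e1 : gcomp F n w (g * (part w g)⁻¹) = 1 := by
        rw [map_mul, map_inv, gcomp_part_self, mul_inv_cancel]
      rw [e1, one_mul, mul_one]
    · rw [gat_iff.1 hh w hw, one_mul, mul_one]

end Pool.Agent.Q182.SPC

end
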